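import Pool.Agent.Lib.MP_49c203_an.Defs

set_option autoImplicit false

namespace QC49

noncomputable section

open scoped RealInnerProductSpace

section gen

variable {H : Type*} [NormedAddCommGroup H] [InnerProductSpace ℝ H]

theorem tau_eq : tau = 1 / 64 := rfl

theorem sg_sq (b : Bool) : sg b * sg b = 1 := by cases b <;> simp [sg]

theorem abs_sg (b : Bool) : |sg b| = 1 := by cases b <;> simp [sg]

namespace PD

variable (D : PD H)

theorem kap_sq {p : ℕ} (hp : p ∈ D.J) (i : Fin (D.X p).n) :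
    (D.X p).kap i ^ 2 = 1 + (1 - 2 * tau) * (D.X p).k i := by
  have h := abs_le.1 (D.hk p hp i)
  unfold Pk.kap
  rw [Real.sq_sqrt]
  rw [tau_eq]; linarith [h.1]

theorem kap_pos {p : ℕ} (hp : p ∈ D.J) (i : Fin (D.X p).n) : 0 < (D.X p).kap i := by
  have h := abs_le.1 (D.hk p hp i)
  unfold Pk.kap
  apply Real.sqrt_pos.2
  rw [tau_eq]; linarith [h.1]

theorem kap_sq_ge {p : ℕ} (hp : p ∈ D.J) (i : Fin (D.X p).n) : 6 / 7 ≤ (D.X p).kap i ^ 2 := by
  have h := abs_le.1 (D.hk p hp i)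
  rw [D.kap_sq hp, tau_eq]; linarith [h.1]

theorem kap_sq_le {p : ℕ} (hp : p ∈ D.J) (i : Fin (D.X p).n) : (D.X p).kap i ^ 2 ≤ 8 / 7 := by
  have h := abs_le.1 (D.hk p hp i)
  rw [D.kap_sq hp, tau_eq]; linarith [h.2]

theorem kap_ge {p : ℕ} (hp : p ∈ D.J) (i : Fin (D.X p).n) : 925 / 1000 ≤ (D.X p).kap i := by
  have h1 := D.kap_sq_ge hp i
  have h2 := D.kap_pos hp i
  nlinarith

theorem kap_le {p : ℕ} (hp : p ∈ D.J) (i : Fin (D.X p).n) : (D.X p).kap i ≤ 10691 / 10000 := by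
  have h1 := D.kap_sq_le hp i
  have h2 := D.kap_pos hp i
  nlinarith

theorem kap_inv_le {p : ℕ} (hp : p ∈ D.J) (i : Fin (D.X p).n) : ((D.X p).kap i)⁻¹ ≤ 10802 / 10000 := by
  have h1 := D.kap_sq_ge hp i
  have h2 := D.kap_pos hp i
  rw [inv_le_comm₀ h2 (by norm_num)]
  nlinarith

theorem one_add_k {p : ℕ} (hp : p ∈ D.J) (i : Fin (D.X p).n) : 6 / 7 ≤ 1 + (D.X p).k i := by
  have h := abs_le.1 (D.hk p hp i)
  linarith [h.1]

theorem a3_pos : 0 < D.a ^ 3 := pow_pos D.ha 3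

theorem S_ge_sum : ∑ p ∈ D.J, (D.X p).s * D.al p ^ 2 ≤ D.S := by
  unfold S
  apply Finset.sum_le_sum
  intro p hp
  have h1 := D.hs p hp
  have h2 := D.hal p hp
  have h3 := D.hal' p hp
  have : D.al p ^ 2 ≤ D.al p := by nlinarith
  exact mul_le_mul_of_nonneg_left this h1.le

/-- `σ/2 ≤ S` -/
theorem S_ge : D.a ^ 3 / 10 ^ 4 / 2 ≤ D.S := D.hS2.trans D.S_ge_sum

/-- `S ≤ 2σ` -/
theorem S_le : D.S ≤ 2 * (D.a ^ 3 / 10 ^ 4) := D.hS1

theorem S_pos : 0 < D.S := lt_of_lt_of_le (by have := D.a3_pos; positivity) D.S_ge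

theorem g2_eq : D.g2 = D.a * ∑ p ∈ D.J, (D.X p).s * D.al p ^ 2 := by
  unfold g2
  rw [Finset.mul_sum]
  exact Finset.sum_congr rfl fun p _ => by ring

/-- `a σ/2 ≤ g²` -/
theorem g2_ge : D.a * (D.a ^ 3 / 10 ^ 4 / 2) ≤ D.g2 := by
  rw [D.g2_eq]
  exact mul_le_mul_of_nonneg_left D.hS2 D.ha.le

theorem g2_le : D.g2 ≤ D.a * D.S := by
  rw [D.g2_eq]
  exact mul_le_mul_of_nonneg_left D.S_ge_sum D.ha.le

theorem g2_pos : 0 < D.g2 := lt_of_lt_of_le (by have := D.a3_pos; have := D.ha; positivity) D.g2_ge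

theorem J_nonempty : D.J.Nonempty := by
  rw [Finset.nonempty_iff_ne_empty]
  intro h
  have := D.S_pos
  unfold S at this
  rw [h] at this
  simp at this

theorem S_le_num : D.S ≤ 2 / 10 ^ 13 := by
  have h1 := D.S_le
  have h2 : D.a ^ 3 ≤ (1 / 1000) ^ 3 := pow_le_pow_left₀ D.ha.le D.ha' 3
  norm_num at h2 ⊢
  linarith

theorem eta_le_S : D.η ≤ 2 / 100 * D.S := by
  have h1 := D.S_ge
  have h2 := D.hη'
  have h3 := D.a3_pos
  nlinarith

theorem pp_nonneg {p : ℕ} (hp : p ∈ D.J) : 0 ≤ D.pp p := by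
  unfold pp
  have h1 := D.hs p hp
  have h2 := D.hal p hp
  have h3 := D.S_pos
  positivity

theorem pp_pos {p : ℕ} (hp : p ∈ D.J) : 0 < D.pp p := by
  unfold pp
  have h1 := D.hs p hp
  have h2 := D.hal p hp
  have h3 := D.S_pos
  positivity

theorem sum_pp : ∑ p ∈ D.J, D.pp p = 1 := by
  unfold pp
  rw [← Finset.sum_div]
  exact div_self D.S_pos.ne'

theorem S_mul_pp (p : ℕ) : D.S * D.pp p = (D.X p).s * D.al p := by
  unfold pp
  have := D.S_pos.ne'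
  field_simp

end PD

end gen

end

end QC49
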