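import Pool.Agent.Lib.MP_49c203_an.Defs

/-! # the statement of the core theorem (paper section 6); sections 7, 8 are deduced from it -/

set_option autoImplicit false

namespace QC49

noncomputable section

open scoped RealInnerProductSpace

/-- core theorem: one generation -/
def CoreStatement : Prop :=
  ∀ K : HH → HH →L[ℝ] HH, Continuous K → (∀ x u v, ⟪K x u, v⟫ = ⟪u, K x v⟫) →
    (∀ x, IsCompactOperator (K x)) → (∀ x, ‖K x‖ ≤ 1 / 8) →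
    ∀ a η : ℝ, 0 < a → a ≤ 1 / 1000 → 0 < η → η ≤ a ^ 3 / 10 ^ 6 →
    ∀ ε : HH → ℝ, Continuous ε → (∀ x, 0 < ε x) →
    ∃ (h : HH → HH) (Dh : HH → HH →L[ℝ] HH) (F : HH → ℝ) (K' : HH → HH →L[ℝ] HH),
      (∀ x, HasFDerivAt h (Dh x) x) ∧ Continuous Dh ∧ (∀ x, ‖Dh x - 1‖ ≤ 3 * a) ∧
      (∀ x, ‖h x - x‖ ≤ ε x) ∧ Continuous F ∧ (∀ x, |F x| ≤ 1 / 2) ∧ Continuous K' ∧
      (∀ x u v, ⟪K' x u, v⟫ = ⟪u, K' x v⟫) ∧ (∀ x, IsCompactOperator (K' x)) ∧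
      (∀ x u, ‖Dh x u‖ ^ 2 + ⟪K (h x) (Dh x u), Dh x u⟫
        = (1 + F x) ^ 2 * (‖u‖ ^ 2 + ⟪K' x u, u⟫)) ∧
      ∀ x w Φ, 1000 * a ≤ w → 0 ≤ Φ → Pot (qf (K (h x))) w Φ →
        Pot (qf (K' x)) (w + 10 * η)
          ((1 - a * (a ^ 3 / 10 ^ 4) / 128) * Φ + 132 * (a ^ 3 / 10 ^ 4) ^ 2)

end

end QC49
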