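import Mathlib

set_option autoImplicit false

/-!
# MP_49c203_an : definitions (counterexample to rigidity of 1-quasiconformal maps of Hilbert space)

Paper: /team-store/MP_49c203_an_paper.md (section numbers below refer to it).
-/

namespace QC49

noncomputable section

open scoped RealInnerProductSpace

/-- real `ℓ²(ℕ)` -/
abbrev HH : Type := lp (fun _ : ℕ => ℝ) 2

/-! ## Section 1: the potential of a quadratic form `q : H → ℝ` -/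

section gen

variable {H : Type*} [NormedAddCommGroup H] [InnerProductSpace ℝ H]

/-- `P(q,w,Φ)`: for every finite orthonormal family `∑ (|q (u b)| - w)_+^2 ≤ Φ`. -/
def Pot (q : H → ℝ) (w Φ : ℝ) : Prop :=
  ∀ (m : ℕ) (u : Fin m → H), Orthonormal ℝ u → ∑ b, (max 0 (|q (u b)| - w)) ^ 2 ≤ Φ

/-- quadratic form of an operator -/
def qf (K : H →L[ℝ] H) (u : H) : ℝ := ⟪K u, u⟫

/-! ## Section 2: signs and averages -/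

def tau : ℝ := 1 / 64

/-- sign of a Boolean -/
def sg (b : Bool) : ℝ := if b then 1 else -1

/-- average over the sign vectors `Fin n → Bool` -/
def avg {n : ℕ} (t : (Fin n → Bool) → ℝ) : ℝ := (∑ c, t c) / 2 ^ n

/-! ## Section 3: packages -/

variable (H) in
/-- a package: orthonormal vectors `v`, values `k`, fresh vectors `ν`, weight `s` (= sigma_p) -/
structure Pk where
  n : ℕ
  v : Fin n → H
  k : Fin n → ℝ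
  ν : (Fin n → Bool) → H
  s : ℝ

/-- `z = α²/2 - (α s)²` -/
def zc (al sl : ℝ) : ℝ := al ^ 2 / 2 - (al * sl) ^ 2

namespace Pk

/-- `kap_i = sqrt (1 + (1-2τ) k_i)` -/
def kap (X : Pk H) (i : Fin X.n) : ℝ := √(1 + (1 - 2 * tau) * X.k i)

/-- `θ = sqrt (s / (a 2^n))` -/
def th (X : Pk H) (a : ℝ) : ℝ := √(X.s / (a * 2 ^ X.n))

def Bv (X : Pk H) (c : Fin X.n → Bool) : H := ∑ i, (sg (c i) * X.kap i) • X.v i

def Bp (X : Pk H) (c : Fin X.n → Bool) : H := ∑ i, (sg (c i) / X.kap i) • X.v i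

def Rv (X : Pk H) (c : Fin X.n → Bool) : H :=
  ∑ i, (sg (c i) * X.k i / ((1 + X.k i) * X.kap i)) • X.v i

/-- the wave vector `ν_c + θ Bv_c` -/
def qv (X : Pk H) (a : ℝ) (c : Fin X.n → Bool) : H := X.ν c + X.th a • X.Bv c

/-- the finite rank operator `K_p` -/
def Kp (X : Pk H) : H →L[ℝ] H := ∑ i, X.k i • ((innerSL ℝ (X.v i)).smulRight (X.v i))

/-- the projection `P_p` on the span of the `v i` -/
def Pr (X : Pk H) : H →L[ℝ] H := ∑ i, (innerSL ℝ (X.v i)).smulRight (X.v i)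

/-- direction in which the mode `c` moves (for amplitude `al`, slope `sl c`) -/
def dirv (X : Pk H) (a al : ℝ) (sl : (Fin X.n → Bool) → ℝ) (c : Fin X.n → Bool) : H :=
  (a * (al * sl c)) • (-(X.ν c) + X.th a • X.Bp c)
    - (tau * a ^ 2 * X.th a * zc al (sl c)) • X.Rv c

/-- the operator `N_p` -/
def Np (X : Pk H) (a al : ℝ) (sl : (Fin X.n → Bool) → ℝ) : H →L[ℝ] H :=
  ∑ c, (innerSL ℝ (X.qv a c)).smulRight (X.dirv a al sl c)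

/-- `F'_p` -/
def Fp (X : Pk H) (a al : ℝ) (sl : (Fin X.n → Bool) → ℝ) : ℝ :=
  X.s * avg (fun c => al * sl c) + 1 / 2 * a * X.s * avg (fun c => (al * sl c) ^ 2)

end Pk

variable (H) in
/-- all the data of the pointwise lemma (section 3) -/
structure PD where
  a : ℝ
  η : ℝ
  J : Finset ℕ
  X : ℕ → Pk H
  al : ℕ → ℝ
  sl : ∀ p, (Fin (X p).n → Bool) → ℝ
  Dp : ℕ → H →L[ℝ] H
  Er : H →L[ℝ] H
  K : H →L[ℝ] H
  ha : 0 < a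
  ha' : a ≤ 1 / 1000
  hη : 0 ≤ η
  hη' : η ≤ a ^ 3 / 10 ^ 6
  hv : ∀ p ∈ J, Orthonormal ℝ (X p).v
  hk : ∀ p ∈ J, ∀ i, |(X p).k i| ≤ 1 / 7
  hν1 : ∀ p ∈ J, Orthonormal ℝ (X p).ν
  hν2 : ∀ p ∈ J, ∀ p' ∈ J, p ≠ p' → ∀ c c', ⟪(X p).ν c, (X p').ν c'⟫ = 0
  hνv : ∀ p ∈ J, ∀ c i, ⟪(X p).ν c, (X p).v i⟫ = 0
  hs : ∀ p ∈ J, 0 < (X p).s
  hal : ∀ p ∈ J, 0 < al p
  hal' : ∀ p ∈ J, al p ≤ 1
  hsl : ∀ p ∈ J, ∀ c, |sl p c| ≤ 1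
  hD1 : ∀ p ∈ J, ‖Dp p‖ ≤ 2
  hD2 : ∀ p ∈ J, ∀ i, Dp p ((X p).v i) = 0
  hD3 : ∀ p ∈ J, ∀ i u, ⟪(X p).v i, Dp p u⟫ = 0
  hEr : ‖Er‖ ≤ η
  hKs : ∀ u v, ⟪K u, v⟫ = ⟪u, K v⟫
  hKn : ‖K‖ ≤ 1 / 7
  hKp : ∀ p ∈ J, ∀ u, ‖K u - (X p).Kp u‖ ≤ η * ‖u‖
  hKZ : ∀ t : ∀ p, (Fin (X p).n → Bool) → ℝ,
    ‖K (∑ p ∈ J, ∑ c, t p c • (X p).ν c)‖ ≤ η * ‖∑ p ∈ J, ∑ c, t p c • (X p).ν c‖
  hS1 : ∑ p ∈ J, (X p).s * al p ≤ 2 * (a ^ 3 / 10 ^ 4)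
  hS2 : a ^ 3 / 10 ^ 4 / 2 ≤ ∑ p ∈ J, (X p).s * al p ^ 2

namespace PD

variable (D : PD H)

/-- `S = ∑ σ_p α_p` -/
def S : ℝ := ∑ p ∈ D.J, (D.X p).s * D.al p

/-- `g² = ∑ a σ_p α_p²` -/
def g2 : ℝ := ∑ p ∈ D.J, D.a * (D.X p).s * D.al p ^ 2

/-- `F'_p` -/
def Fq (p : ℕ) : ℝ := (D.X p).Fp D.a (D.al p) (D.sl p)

/-- `F'` -/
def FF : ℝ := ∑ p ∈ D.J, D.Fq p

/-- `d_c` -/
def d (p : ℕ) (c : Fin (D.X p).n → Bool) : ℝ := D.al p * D.sl p c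

/-- `z_c` -/
def z (p : ℕ) (c : Fin (D.X p).n → Bool) : ℝ := zc (D.al p) (D.sl p c)

/-- `b_c(u)` -/
def b (p : ℕ) (c : Fin (D.X p).n → Bool) (u : H) : ℝ := ⟪(D.X p).Bv c, u⟫

/-- `ζ_c(u)` -/
def ze (p : ℕ) (c : Fin (D.X p).n → Bool) (u : H) : ℝ := ⟪(D.X p).ν c, u⟫

/-- `y_i(u)` -/
def yy (p : ℕ) (i : Fin (D.X p).n) (u : H) : ℝ := ⟪(D.X p).v i, u⟫

/-- `r_c(u) = ∑ (k_i/kap_i) c_i y_i`, for a general sequence of values `κ_i` instead of `k_i` -/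
def rr (p : ℕ) (κ : Fin (D.X p).n → ℝ) (c : Fin (D.X p).n → Bool) (u : H) : ℝ :=
  ∑ i, κ i / (D.X p).kap i * sg (c i) * D.yy p i u

/-- `q_c(u)` -/
def q (p : ℕ) (c : Fin (D.X p).n → Bool) (u : H) : ℝ := ⟪(D.X p).qv D.a c, u⟫

def nZ (u : H) : H := -∑ p ∈ D.J, ∑ c, (D.a * D.d p c * D.q p c u) • (D.X p).ν c

def nAp (p : ℕ) (u : H) : H := ∑ c, D.q p c u •
  ((D.a * D.d p c * (D.X p).th D.a) • (D.X p).Bp c
    - (tau * D.a ^ 2 * (D.X p).th D.a * D.z p c) • (D.X p).Rv c)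

def nA (u : H) : H := ∑ p ∈ D.J, D.nAp p u

def nD (u : H) : H := ∑ p ∈ D.J, D.Fq p • D.Dp p u

/-- `n_o = n_A + n_D + n_E` -/
def no (u : H) : H := D.nA u + D.nD u + D.Er u

/-- the vector `y` -/
def Y (u : H) : H :=
  u + ∑ p ∈ D.J, (D.X p).Np D.a (D.al p) (D.sl p) u + ∑ p ∈ D.J, D.Fq p • D.Dp p u + D.Er u

/-- the new quadratic form `K'(u)` -/
def K' (u : H) : ℝ := (‖D.Y u‖ ^ 2 + ⟪D.K (D.Y u), D.Y u⟫) / (1 + D.FF) ^ 2 - ‖u‖ ^ 2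

/-- the projection on `Z` -/
def PZ (u : H) : H := ∑ p ∈ D.J, ∑ c, D.ze p c u • (D.X p).ν c

/-- `|z_p|²` -/
def zz (p : ℕ) (u : H) : ℝ := ∑ c, D.ze p c u ^ 2

/-- the clip of `k_i` at level `w` : `R`-part -/
def rk (w : ℝ) (p : ℕ) (i : Fin (D.X p).n) : ℝ := max (-w) (min w ((D.X p).k i))

/-- `Q`-part -/
def qk (w : ℝ) (p : ℕ) (i : Fin (D.X p).n) : ℝ := (D.X p).k i - D.rk w p i

/-- diagonal quadratic form `∑ κ_i y_i²` -/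
def dg (p : ℕ) (κ : Fin (D.X p).n → ℝ) (u : H) : ℝ := ∑ i, κ i * D.yy p i u ^ 2

/-- the entries `S_ij` (`i ≠ j`) -/
def Sij (p : ℕ) (i j : Fin (D.X p).n) : ℝ :=
  avg (fun c => sg (c i) * sg (c j) *
    ((2 * (D.X p).s * D.d p c + D.a * (D.X p).s * D.d p c ^ 2) * ((D.X p).kap i * (D.X p).kap j)
      + 2 * tau * (D.X p).s * (2 * D.d p c - D.a * D.z p c)
        * ((D.X p).k i / (D.X p).kap i * (D.X p).kap j)))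

/-- the form `S_p(u)` -/
def Sp (p : ℕ) (u : H) : ℝ :=
  ∑ i, ∑ j, if i = j then 0 else D.Sij p i j * D.yy p i u * D.yy p j u

/-- `C_p` for the values `κ` -/
def Cp (p : ℕ) (κ : Fin (D.X p).n → ℝ) (u : H) : ℝ :=
  2 * tau * D.a * (D.X p).th D.a * ∑ c, (2 * D.d p c - D.a * D.z p c) * D.rr p κ c u * D.ze p c u

/-- `Z_p(u)` -/
def Zp (p : ℕ) (u : H) : ℝ :=
  -2 * D.a * ∑ c, D.d p c * D.ze p c u ^ 2
    + 2 * D.a ^ 2 * (D.X p).th D.a * ∑ c, D.d p c ^ 2 * D.b p c u * D.ze p c u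
    + D.a ^ 2 * ∑ c, D.d p c ^ 2 * D.ze p c u ^ 2

/-- the main term `MM` -/
def MM (u : H) : ℝ :=
  ∑ p ∈ D.J, 2 * ⟪u + (D.X p).Kp u, (D.X p).Np D.a (D.al p) (D.sl p) u⟫ + ‖D.nZ u‖ ^ 2

/-- `G'(u)` -/
def G' (u : H) : ℝ := ‖D.Y u‖ ^ 2 + ⟪D.K (D.Y u), D.Y u⟫

/-- `π_p` -/
def pp (p : ℕ) : ℝ := (D.X p).s * D.al p / D.S

/-- `λ_p` -/
def lam (p : ℕ) : ℝ := D.pp p * (1 + 2 * D.FF - tau * D.a * D.S * D.al p)

/-- the form `M(u)` at level `w` -/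
def M (w : ℝ) (u : H) : ℝ :=
  ∑ p ∈ D.J, D.lam p * D.dg p (D.qk w p) u + ∑ p ∈ D.J, D.Sp p u
    + ∑ p ∈ D.J, D.Cp p (D.qk w p) u

end PD

end gen

end

end QC49
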